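import Pool.Agent.Lib.MP_6e559c_co.Hedge

set_option autoImplicit false

namespace Pool.Agent.Results.MP_6e559c_co.Antichain

open Pool.Agent.Lib.MP_6e559c_co

theorem result : ∃ A : Set (Matroid ℕ), A.Infinite ∧
    (∀ M ∈ A, M.E.Finite ∧ RealRep M ∧ Conn M ∧ (∀ I ⊆ M.E, I.encard ≤ 3 → M.Indep I) ∧
      ¬ ∃ N, N.IsMinor M ∧ IsUnif 3 6 N) ∧
    ∀ M ∈ A, ∀ M' ∈ A, M ≠ M' → ¬ ∃ N, N.IsMinor M' ∧ Iso M N :=
  hedge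

end Pool.Agent.Results.MP_6e559c_co.Antichain
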